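import Pool.Agent.Work.MP_ea6116_an.Bd.B07

/-!
MP_ea6116_an, item KEYW: the anisotropic weight.
-/

set_option autoImplicit false

open MeasureTheory Metric Set Filter Topology
open scoped ENNReal NNReal ContDiff

namespace EAGrad

variable {n : ℕ}

/-- The linear part of the weight is positive enough on the cone. -/
theorem KEYW_f {c β ζ : ℝ} {e : En n} {y : Fin n → En n} (hF : Frame c e y) (hβ : 0 < β)
    (hζ : 0 < ζ) (hβc : 4 * β ≤ c) (hζn : 6 * n * ζ ≤ β) {x : En n} (hx : x ≠ 0)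
    (h : ∀ j, inner ℝ x (y j) < 3 * ζ * ‖x‖) :
    3 * β - 4 * β * (inner ℝ x e / ‖x‖) ^ 2 ≤ inner ℝ x (-∑ j, y j) / ‖x‖ := by
  have hr : 0 < ‖x‖ := norm_pos_iff.2 hx
  have hr' : ‖x‖ ≠ 0 := hr.ne'
  obtain ⟨θ, hθ⟩ : ∃ θ : En n, θ = ‖x‖⁻¹ • x := ⟨_, rfl⟩
  have hθn : ‖θ‖ = 1 := by
    rw [hθ, norm_smul, norm_inv, norm_norm, inv_mul_cancel₀ hr']
  have h1 : ∀ v : En n, inner ℝ x v / ‖x‖ = inner ℝ θ v := by
    intro v
    rw [hθ, real_inner_smul_left]
    field_simp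
  rw [h1, h1]
  obtain ⟨t, ht⟩ : ∃ t : ℝ, t = inner ℝ θ e := ⟨_, rfl⟩
  obtain ⟨v, hv⟩ : ∃ v : En n, v = θ - t • e := ⟨_, rfl⟩
  rw [← ht]
  have hev : inner ℝ e v = (0 : ℝ) := by
    rw [hv, inner_sub_right, real_inner_smul_right, real_inner_self_eq_norm_sq, hF.norm_e, ht,
      real_inner_comm]
    ring
  have hvy : ∀ j, inner ℝ v (y j) = inner ℝ θ (y j) := by
    intro j
    rw [hv, inner_sub_left, real_inner_smul_left, hF.orth j]
    ring
  have hvn : ‖v‖ ^ 2 = 1 - t ^ 2 := by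
    rw [← real_inner_self_eq_norm_sq v]
    have hvv : inner ℝ v v = inner ℝ θ v - t * inner ℝ e v := by
      nth_rw 1 [hv]
      rw [inner_sub_left, real_inner_smul_left]
    rw [hvv, hev, hv, inner_sub_right, real_inner_smul_right, real_inner_self_eq_norm_sq, hθn, ← ht]
    ring
  have hv1 : ‖v‖ ≤ 1 := by
    have : ‖v‖ ^ 2 ≤ 1 ^ 2 := by rw [hvn]; nlinarith [sq_nonneg t]
    exact le_of_sq_le_sq this zero_le_one
  have hvv : ‖v‖ ^ 2 ≤ ‖v‖ := by nlinarith [norm_nonneg v]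
  have h2 := hF.span v hev
  have h3 : ∑ j, |inner ℝ v (y j)| ≤ ∑ j, (6 * ζ - inner ℝ v (y j)) := by
    apply Finset.sum_le_sum
    intro j _
    have h4 : inner ℝ v (y j) < 3 * ζ := by
      rw [hvy, ← h1, div_lt_iff₀ hr]
      exact h j
    rcases abs_cases (inner ℝ v (y j)) with h5 | h5 <;> linarith [h5.1, h5.2]
  have h4 : ∑ j, (6 * ζ - inner ℝ v (y j)) = 6 * n * ζ + inner ℝ θ (-∑ j, y j) := by
    rw [Finset.sum_sub_distrib, inner_neg_right, inner_sum]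
    simp only [hvy, Finset.sum_const, Finset.card_univ, Fintype.card_fin, nsmul_eq_mul]
    ring
  have h5 : c * ‖v‖ ≤ β + inner ℝ θ (-∑ j, y j) := by linarith
  have h6 : 4 * β * ‖v‖ ^ 2 ≤ c * ‖v‖ := by
    calc 4 * β * ‖v‖ ^ 2 ≤ 4 * β * ‖v‖ := by gcongr
      _ ≤ c * ‖v‖ := by gcongr
  rw [hvn] at h6
  linarith

theorem KEYW_m_norm {c : ℝ} {e : En n} {y : Fin n → En n} (hF : Frame c e y) :
    ‖-∑ j, y j‖ ≤ 4 * n := by
  rw [norm_neg]
  calc ‖∑ j, y j‖ ≤ ∑ j, ‖y j‖ := norm_sum_le _ _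
    _ ≤ ∑ _j : Fin n, (4 : ℝ) := Finset.sum_le_sum fun j _ => hF.bd j
    _ = 4 * n := by simp [mul_comm]

theorem KEYW_small (a α : ℝ) (hα : 0 < α) : ∀ᶠ ε in 𝓝[>] (0 : ℝ), ε * a ≤ α := by
  have : Tendsto (fun ε : ℝ => ε * a) (𝓝[>] 0) (𝓝 0) := by
    have h : Continuous (fun ε : ℝ => ε * a) := by fun_prop
    simpa using (h.tendsto 0).mono_left nhdsWithin_le_nhds
  exact (this.eventually_lt_const hα).mono fun _ h => h.le

theorem KEYW_open_cone (t : ℝ) (y : Fin n → En n) :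
    IsOpen {x : En n | ∀ j, inner ℝ x (y j) < t * ‖x‖} := by
  have h : {x : En n | ∀ j, inner ℝ x (y j) < t * ‖x‖} =
      ⋂ j, {x : En n | inner ℝ x (y j) < t * ‖x‖} := by
    ext x; simp
  rw [h]
  exact isOpen_iInter_of_finite fun j => isOpen_lt (by fun_prop) (by fun_prop)

theorem KEYW_closed_cone (t : ℝ) (y : Fin n → En n) :
    IsClosed {x : En n | ∀ j, inner ℝ x (y j) ≤ t * ‖x‖} := by
  have h : {x : En n | ∀ j, inner ℝ x (y j) ≤ t * ‖x‖} =
      ⋂ j, {x : En n | inner ℝ x (y j) ≤ t * ‖x‖} := by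
    ext x; simp
  rw [h]
  exact isClosed_iInter fun j => isClosed_le (by fun_prop) (by fun_prop)

/-- Uniform bounds. -/
theorem KEYW_unif (ε β q sb h₁ a b a0 a1 a2 a3 ζ : ℝ) (ha : 0 < a) :
    ∃ M : ℝ, 0 < M ∧ b ≤ M ∧ ∀ (x m e : En n) (y : Fin n → En n), a ≤ ‖x‖ → ‖x‖ ≤ b →
      ‖m‖ ≤ 4 * n → ‖e‖ ≤ 1 → (∀ j, ‖y j‖ ≤ 4) →
      ‖fderiv ℝ (phw ε β q sb h₁ m e) x‖ ≤ M ∧
      ‖fderiv ℝ (fderiv ℝ (phw ε β q sb h₁ m e)) x‖ ≤ M ∧
      |gkw ε β q sb x| ≤ M ∧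
      ‖fderiv ℝ (fun x => Bkw ε β q sb h₁ (x, (m, e))) x‖ ≤ M ∧
      ‖fderiv ℝ (fun x => chiw a0 a1 a2 a3 ζ (x, y)) x‖ ≤ M ∧
      ‖fderiv ℝ (fderiv ℝ (fun x => chiw a0 a1 a2 a3 ζ (x, y))) x‖ ≤ M := by
  have hKx : IsCompact (closedBall (0 : En n) b ∩ {x | a ≤ ‖x‖}) :=
    (isCompact_closedBall _ _).inter_right (isClosed_le continuous_const continuous_norm)
  have hK1 := hKx.prod ((isCompact_closedBall (0 : En n) (4 * n)).prod
    (isCompact_closedBall (0 : En n) 1))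
  have hK2 := hKx.prod (isCompact_closedBall (0 : Fin n → En n) 4)
  have hne : ∀ x : En n, a ≤ ‖x‖ → x ≠ 0 := fun x hx h => by
    rw [h, norm_zero] at hx; linarith
  obtain ⟨M1, hM1, h1⟩ := KEYW_bound KEYW_isOpen (KEYW_joint (n := n) ε β q sb h₁) hK1
    (fun z hz => hne _ hz.1.2)
  obtain ⟨M2, hM2, h2⟩ := KEYW_bound KEYW_isOpen (KEYW_Bjoint (n := n) ε β q sb h₁) hK1
    (fun z hz => hne _ hz.1.2)
  obtain ⟨M3, hM3, h3⟩ := KEYW_bound KEYW_isOpen (KEYW_gjoint (n := n) (P := En n × En n) ε β q sb)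
    hK1 (fun z hz => hne _ hz.1.2)
  obtain ⟨M4, hM4, h4⟩ := KEYW_bound KEYW_isOpen (KEYW_chi_joint (n := n) a0 a1 a2 a3 ζ) hK2
    (fun z hz => hne _ hz.1.2)
  refine ⟨M1 + M2 + M3 + M4 + |b|, by positivity, by linarith [le_abs_self b], ?_⟩
  intro x m e y hxa hxb hm he hy
  have hx1 : x ∈ closedBall (0 : En n) b ∩ {x | a ≤ ‖x‖} := ⟨by simpa using hxb, hxa⟩
  have hz1 : (x, (m, e)) ∈ (closedBall (0 : En n) b ∩ {x | a ≤ ‖x‖}) ×ˢ
      (closedBall (0 : En n) (4 * n) ×ˢ closedBall (0 : En n) 1) :=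
    ⟨hx1, by simpa using hm, by simpa using he⟩
  have hz2 : (x, y) ∈ (closedBall (0 : En n) b ∩ {x | a ≤ ‖x‖}) ×ˢ
      (closedBall (0 : Fin n → En n) 4) :=
    ⟨hx1, by
      rw [mem_closedBall_zero_iff]
      exact (pi_norm_le_iff_of_nonneg (by norm_num)).2 hy⟩
  have e1 := h1 x (m, e) hz1
  have e2 := h2 x (m, e) hz1
  have e3 := h3 x (m, e) hz1
  have e4 := h4 x y hz2
  have hb := abs_nonneg b
  refine ⟨?_, ?_, ?_, ?_, ?_, ?_⟩
  · exact e1.2.1.trans (by linarith)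
  · exact e1.2.2.trans (by linarith)
  · exact e3.1.trans (by linarith)
  · exact e2.2.1.trans (by linarith)
  · exact e4.2.1.trans (by linarith)
  · exact e4.2.2.trans (by linarith)

theorem KEYW : StmtKEYW := by
  intro n c hn hc
  have hn' : (2 : ℝ) ≤ n := by exact_mod_cast hn
  obtain ⟨β, hβ, hβ4, hβc⟩ : ∃ β : ℝ, 0 < β ∧ β ≤ 1 / 4 ∧ 4 * β ≤ c := by
    refine ⟨min c 1 / 4, by positivity, ?_, ?_⟩
    · have := min_le_right c 1; linarith
    · have := min_le_left c 1; linarith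
  obtain ⟨ζ, hζ, hζ1, hζn⟩ : ∃ ζ : ℝ, 0 < ζ ∧ ζ ≤ 1 ∧ 6 * n * ζ ≤ β := by
    refine ⟨β / (6 * n), by positivity, ?_, ?_⟩
    · rw [div_le_one (by positivity)]; linarith
    · apply le_of_eq; field_simp
  obtain ⟨S, hS20, hS2⟩ : ∃ S : ℝ, 20 ≤ S ∧ β / 8 * S ^ 2 = 8 * n + 5 := by
    refine ⟨√((8 * n + 5) / (β / 8)), ?_, ?_⟩
    · apply Real.le_sqrt_of_sq_le
      rw [le_div_iff₀ (by positivity)]
      linarith only [hβ4, hn']
    · rw [Real.sq_sqrt (by positivity)]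
      field_simp
  obtain ⟨R₁, hR8, hζR⟩ : ∃ R₁ : ℝ, 8 ≤ R₁ ∧ 64 ≤ ζ * R₁ := by
    refine ⟨max 8 (64 / ζ), le_max_left _ _, ?_⟩
    calc (64 : ℝ) = ζ * (64 / ζ) := by field_simp
      _ ≤ _ := by gcongr; exact le_max_right _ _
  obtain ⟨sb, hsb⟩ : ∃ sb : ℝ, Real.exp (sb - S - 2) = R₁ := by
    refine ⟨Real.log R₁ + S + 2, ?_⟩
    rw [show Real.log R₁ + S + 2 - S - 2 = Real.log R₁ by ring, Real.exp_log (by linarith)]
  -- exponentials
  have hexp : ∀ {a b t : ℝ}, a + t ≤ b → 0 ≤ t → Real.exp a * (1 + t) ≤ Real.exp b := by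
    intro a b t hab ht
    calc Real.exp a * (1 + t) ≤ Real.exp a * Real.exp t := by
          gcongr
          linarith [Real.add_one_le_exp t]
      _ = Real.exp (a + t) := (Real.exp_add _ _).symm
      _ ≤ Real.exp b := Real.exp_le_exp.2 hab
  have hR1pos : 0 < R₁ := by linarith
  have hRR : R₁ * 23 ≤ Real.exp sb := by
    have := hexp (a := sb - S - 2) (b := sb) (t := 22) (by linarith) (by norm_num)
    rw [hsb] at this
    linarith
  set R : ℝ := Real.exp sb with hR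
  have hRpos : 0 < R := Real.exp_pos _
  set R₂ : ℝ := Real.exp (sb + S + 2) with hR₂
  have hR2pos : 0 < R₂ := Real.exp_pos _
  have hRR2 : R * 23 ≤ R₂ := by
    have := hexp (a := sb) (b := sb + S + 2) (t := 22) (by linarith) (by norm_num)
    linarith
  have hn0 : (0 : ℝ) ≤ n := Nat.cast_nonneg n
  set C₁ : ℝ := 4 * (β / 8) * (S + 1) + β / 2 + 2 * (β / 8) + (4 / β) * (4 * n + 2 * β) ^ 2
    with hC₁
  set C₂ : ℝ := 4 * n + 4 * (β / 8) * (S + 1) + 2 * β + (8 / β) * (4 * n + 2 * β) ^ 2 with hC₂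
  obtain ⟨ε, ⟨⟨⟨⟨⟨hε1, hεa⟩, hεb⟩, hεc⟩, hεd⟩, hεe⟩, hε⟩ := ((((((KEYW_small 1 1 one_pos).and
    (KEYW_small (C₁ + β / 4) 2 two_pos)).and (KEYW_small (β / 4 * (S + 1)) (1 / 2) (by norm_num))).and
    (KEYW_small ((2 + C₂) * (4 * n + 2 * β) ^ 2) (β / 64) (by positivity))).and
    (KEYW_small (8 * n + 4) (ζ / (4 * R₂)) (by positivity))).and
    (KEYW_small 1 1 one_pos)).and self_mem_nhdsWithin |>.exists
  rw [mul_one] at hε1
  have hε : 0 < ε := hε
  obtain ⟨M, hM, hM2, hMb⟩ := KEYW_unif (n := n) ε β (β / 8) sb (4 * n + 3)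
    (Real.exp (sb - S - 1)) R₂ (Real.exp (sb - S - 1 / 2)) (Real.exp (sb - S)) (Real.exp (sb + S))
    (Real.exp (sb + S + 1 / 2)) ζ (Real.exp_pos _)
  refine ⟨ζ, R₁, R, R₂, ε, 1 / 10, ε, M + 1, min (ε * (β / 4) / R₂ ^ 2) (ε * β / (64 * R₂ ^ 4)),
    hζ, hR8, hζR, by linarith, by linarith, hε, by norm_num, by norm_num, by linarith, by linarith,
    hε, by linarith, by positivity, ?_⟩
  intro e y hF
  set m : En n := -∑ j, y j with hm
  have hmn : ‖m‖ ≤ 4 * n := KEYW_m_norm hF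
  set D : Set (En n) := {x | Real.exp (sb - S - 1) < ‖x‖ ∧ ‖x‖ < Real.exp (sb + S + 1) ∧
    ∀ j, inner ℝ x (y j) < 3 * ζ * ‖x‖} with hD
  set φ : En n → ℝ := phw ε β (β / 8) sb (4 * n + 3) m e with hφ
  set χ : En n → ℝ := fun x => chiw (Real.exp (sb - S - 1 / 2)) (Real.exp (sb - S))
    (Real.exp (sb + S)) (Real.exp (sb + S + 1 / 2)) ζ (x, y) with hχ
  have hA0 : 0 < Real.exp (sb - S - 1 / 2) := Real.exp_pos _
  have hA01 : Real.exp (sb - S - 1 / 2) < Real.exp (sb - S) := Real.exp_lt_exp.2 (by linarith)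
  have hA2 : 0 < Real.exp (sb + S) := Real.exp_pos _
  have hA23 : Real.exp (sb + S) < Real.exp (sb + S + 1 / 2) := Real.exp_lt_exp.2 (by linarith)
  have hDpos : ∀ x ∈ D, 0 < ‖x‖ := fun x hx => (Real.exp_pos _).trans hx.1
  have hDne : ∀ x ∈ D, x ≠ 0 := fun x hx => norm_pos_iff.1 (hDpos x hx)
  have hup : Real.exp (sb + S + 1) * 2 ≤ R₂ := by
    have := hexp (a := sb + S + 1) (b := sb + S + 2) (t := 1) (by linarith) (by norm_num)
    linarith
  have hlow : R₁ * 2 ≤ Real.exp (sb - S - 1) := by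
    have := hexp (a := sb - S - 2) (b := sb - S - 1) (t := 1) (by linarith) (by norm_num)
    rw [hsb] at this
    linarith
  have hDle : ∀ x ∈ D, ‖x‖ ≤ R₂ := fun x hx => by
    have h1 := hx.2.1
    have := hDpos x hx
    linarith
  have hDopen : IsOpen D := by
    rw [hD]
    exact (isOpen_lt continuous_const continuous_norm).inter
      ((isOpen_lt continuous_norm continuous_const).inter (KEYW_open_cone (3 * ζ) y))
  have hun : ∀ x ∈ D, _ := fun x hx => hMb x m e y hx.1.le (hDle x hx) hmn hF.norm_e.le hF.bd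
  -- size of the perturbation
  have hk : ∀ x : En n, x ≠ 0 → |inner ℝ x m / ‖x‖| ≤ 4 * n ∧
      0 ≤ β * inner ℝ x e ^ 2 / ‖x‖ ^ 2 ∧ β * inner ℝ x e ^ 2 / ‖x‖ ^ 2 ≤ β := by
    intro x hx
    have hr : 0 < ‖x‖ := norm_pos_iff.2 hx
    refine ⟨?_, by positivity, ?_⟩
    · rw [abs_div, abs_norm, div_le_iff₀ hr]
      calc |inner ℝ x m| ≤ ‖x‖ * ‖m‖ := abs_real_inner_le_norm _ _
        _ ≤ ‖x‖ * (4 * n) := by gcongr
        _ = _ := by ring
    · rw [div_le_iff₀ (by positivity)]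
      have h1 := abs_real_inner_le_norm x e
      rw [hF.norm_e, mul_one] at h1
      have h2 : inner ℝ x e ^ 2 ≤ ‖x‖ ^ 2 := by
        rw [← sq_abs (inner ℝ x e)]
        exact pow_le_pow_left₀ (abs_nonneg _) h1 2
      gcongr
  have hφ1 : ∀ x : En n, x ≠ 0 → S ≤ |Real.log ‖x‖ - sb| → φ x ≤ -Real.log ‖x‖ - ε := by
    intro x hx hS
    obtain ⟨h1, h2, -⟩ := hk x hx
    have h3 : β / 8 * S ^ 2 ≤ β / 8 * (Real.log ‖x‖ - sb) ^ 2 := by
      rw [← sq_abs (Real.log ‖x‖ - sb)]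
      gcongr
    have h4 := neg_le_of_abs_le h1
    have h5 : 1 ≤ kw β (β / 8) sb (4 * n + 3) m e x := by
      unfold kw
      linarith only [h3, h4, h2, hS2]
    have h6 : φ x = -Real.log ‖x‖ - ε * kw β (β / 8) sb (4 * n + 3) m e x := rfl
    rw [h6]
    have h7 := mul_le_mul_of_nonneg_left h5 hε.le
    linarith only [h7]
  have hφ2 : ∀ x : En n, x ≠ 0 → φ x ≤ -Real.log ‖x‖ + ζ / (4 * R₂) := by
    intro x hx
    obtain ⟨h1, h2, -⟩ := hk x hx
    have h3 : 0 ≤ β / 8 * (Real.log ‖x‖ - sb) ^ 2 := by positivity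
    have h4 := neg_le_of_abs_le h1
    have h5 : -(8 * n + 3) ≤ kw β (β / 8) sb (4 * n + 3) m e x := by
      unfold kw
      linarith only [h3, h4, h2]
    have h6 : φ x = -Real.log ‖x‖ - ε * kw β (β / 8) sb (4 * n + 3) m e x := rfl
    rw [h6]
    have h7 := mul_le_mul_of_nonneg_left h5 hε.le
    linarith only [h7, hεd, hε]
  refine ⟨D, φ, fun x => Bkw ε β (β / 8) sb (4 * n + 3) (x, (m, e)), gkw ε β (β / 8) sb, χ,
    hDopen, ?_, ?_, ?_, ?_, ?_, ?_, ?_, ?_, ?_, ?_, ?_, ?_⟩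
  · intro x hx
    rw [mem_ball_zero_iff]
    linarith [hDle x hx]
  · intro x hx
    exact (KEYW_contDiffAt ε β (β / 8) sb (4 * n + 3) m e (hDne x hx)).contDiffWithinAt
  · intro x hx
    have h1 : ContDiffAt ℝ ∞ (Bkw (n := n) ε β (β / 8) sb (4 * n + 3)) (x, (m, e)) :=
      ((KEYW_Bjoint ε β (β / 8) sb (4 * n + 3)) (x, (m, e)) (hDne x hx)).contDiffAt
        (KEYW_isOpen.mem_nhds (hDne x hx))
    exact (h1.comp x (contDiffAt_id.prodMk contDiffAt_const)).contDiffWithinAt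
  · exact KEYW_chi_smooth hA0 hA01 hA23 hA2 hζ y
  · apply HasCompactSupport.of_support_subset_isCompact
      (isCompact_closedBall (0 : En n) (Real.exp (sb + S + 1 / 2)))
    intro x hx
    rw [mem_closedBall_zero_iff]
    exact (KEYW_chi_supp hA0 hA01 hA23 hA2 hζ hx).2.1.le
  · have hcl : IsClosed {x : En n | Real.exp (sb - S - 1 / 2) ≤ ‖x‖ ∧
        ‖x‖ ≤ Real.exp (sb + S + 1 / 2) ∧ ∀ j, inner ℝ x (y j) ≤ 2 * ζ * ‖x‖} :=
      (isClosed_le continuous_const continuous_norm).inter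
        ((isClosed_le continuous_norm continuous_const).inter (KEYW_closed_cone (2 * ζ) y))
    have hsub : tsupport χ ⊆ {x : En n | Real.exp (sb - S - 1 / 2) ≤ ‖x‖ ∧
        ‖x‖ ≤ Real.exp (sb + S + 1 / 2) ∧ ∀ j, inner ℝ x (y j) ≤ 2 * ζ * ‖x‖} := by
      apply closure_minimal _ hcl
      intro x hx
      have h := KEYW_chi_supp hA0 hA01 hA23 hA2 hζ hx
      exact ⟨h.1.le, h.2.1.le, h.2.2⟩
    intro x hx
    obtain ⟨h1, h2, h3⟩ := hsub hx
    have h4 : Real.exp (sb - S - 1) < Real.exp (sb - S - 1 / 2) :=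
      Real.exp_lt_exp.2 (by linarith)
    have h5 : Real.exp (sb + S + 1 / 2) < Real.exp (sb + S + 1) :=
      Real.exp_lt_exp.2 (by linarith)
    refine ⟨by linarith, by linarith, fun j => (h3 j).trans_lt ?_⟩
    have : 0 < ζ * ‖x‖ := by
      apply mul_pos hζ
      linarith
    linarith
  · intro x
    exact KEYW_chi_bd _ _ _ _ _ _
  · have hσ : ∀ x ∈ D, |Real.log ‖x‖ - sb| ≤ S + 1 := by
      intro x hx
      have h1 := (Real.lt_log_iff_exp_lt (hDpos x hx)).2 hx.1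
      have h2 := (Real.log_lt_iff_lt_exp (hDpos x hx)).2 hx.2.1
      rw [abs_le]
      constructor <;> linarith
    refine ⟨?_, ?_, ?_, ?_, ?_, ?_, ?_⟩
    · intro x hx
      exact (hun x hx).1.trans (by linarith)
    · intro x hx
      exact (hun x hx).2.1.trans (by linarith)
    · intro x hx
      exact (hun x hx).2.2.1.trans (by linarith)
    · intro x hx
      exact (hun x hx).2.2.2.1.trans (by linarith)
    · intro x hx
      exact KEYW_B_eq _ _ _ _ _ m e (hDne x hx)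
    · intro x hx ξ
      have h1 := KEYW_h1 (ξ := ξ) (h₁ := 4 * n + 3) (hDne x hx) hF.norm_e hmn hβ hβ4 hε (hσ x hx)
        (KEYW_f hF hβ hζ hβc hζn (hDne x hx) hx.2.2) hC₁ hεa
      refine le_trans ?_ h1
      gcongr
      refine (min_le_left _ _).trans ?_
      have := hDle x hx
      have := hDpos x hx
      gcongr
    · intro x hx
      have h1 := KEYW_h2 (h₁ := 4 * n + 3) (hDne x hx) hF.norm_e hmn hβ hβ4 hε hε1 (hσ x hx)
        (by rw [mul_assoc]; exact hεb) hC₂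
        (by
          calc _ = ε * ((2 + C₂) * (4 * n + 2 * β) ^ 2) := by ring
            _ ≤ _ := hεc)
      refine le_trans ?_ h1
      refine (min_le_right _ _).trans ?_
      have := hDle x hx
      have := hDpos x hx
      gcongr
  · intro x hx
    obtain ⟨-, -, -, -, h5, h6⟩ := hun x hx
    exact ⟨h5.trans (by linarith), h6.trans (by linarith)⟩
  · intro x hx
    have h1 := hx.1
    have h2 := hx.2.1
    have h3 := hDpos x hx
    constructor <;> linarith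
  · intro x hx hd
    by_cases hS : S ≤ |Real.log ‖x‖ - sb|
    · exact Or.inl (hφ1 x (hDne x hx) hS)
    right
    by_contra hcon
    push Not at hcon hS
    have hj : ∀ j, inner ℝ x (y j) < ζ * ‖x‖ := by
      intro j
      by_contra h
      push Not at h
      exact absurd (hφ2 x (hDne x hx)) (not_le.2 (hcon j h))
    have hx0 := hDpos x hx
    rw [abs_lt] at hS
    have h1 : Real.exp (sb - S) < ‖x‖ := (Real.lt_log_iff_exp_lt hx0).1 (by linarith)
    have h2 : ‖x‖ < Real.exp (sb + S) := (Real.log_lt_iff_lt_exp hx0).1 (by linarith)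
    have hU : IsOpen ({x : En n | Real.exp (sb - S) < ‖x‖} ∩ ({x : En n | ‖x‖ < Real.exp (sb + S)} ∩
        {x : En n | ∀ j, inner ℝ x (y j) < ζ * ‖x‖})) :=
      (isOpen_lt continuous_const continuous_norm).inter
      ((isOpen_lt continuous_norm continuous_const).inter (KEYW_open_cone ζ y))
    have hone : χ =ᶠ[𝓝 x] fun _ => (1 : ℝ) := by
      filter_upwards [hU.mem_nhds ⟨h1, h2, hj⟩] with z hz
      exact KEYW_chi_one hA0 hA01 hA23 hA2 hζ hz.1.le hz.2.1.le (fun j => (hz.2.2 j).le)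
    have hf1 : fderiv ℝ χ =ᶠ[𝓝 x] fun _ => 0 := by
      have := hone.fderiv (𝕜 := ℝ)
      refine this.trans ?_
      filter_upwards with z
      simp
    have hf2 : fderiv ℝ (fderiv ℝ χ) x = 0 := by
      rw [hf1.fderiv_eq]
      simp
    rcases hd with hd | hd
    · exact hd hf1.self_of_nhds
    · exact hd hf2
  · intro y₀ hy1 hy2 hy3
    have hlog : ∀ x ∈ closedBall y₀ ε, ‖y₀‖ - 1 ≤ ‖x‖ ∧ ‖x‖ ≤ ‖y₀‖ + ε ∧
        ∀ j, inner ℝ x (y j) ≤ ζ * ‖x‖ := by
      intro x hx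
      rw [mem_closedBall, dist_eq_norm] at hx
      have h1 : ‖x‖ ≤ ‖y₀‖ + ε := by
        calc ‖x‖ = ‖y₀ + (x - y₀)‖ := by congr 1; abel
          _ ≤ ‖y₀‖ + ‖x - y₀‖ := norm_add_le _ _
          _ ≤ _ := by linarith
      have h2 : ‖y₀‖ ≤ ‖x‖ + ε := by
        calc ‖y₀‖ = ‖x - (x - y₀)‖ := by congr 1; abel
          _ ≤ ‖x‖ + ‖x - y₀‖ := norm_sub_le _ _
          _ ≤ _ := by linarith
      refine ⟨by linarith, h1, fun j => ?_⟩
      have h3 : inner ℝ x (y j) = inner ℝ y₀ (y j) + inner ℝ (x - y₀) (y j) := by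
        rw [inner_sub_left]; ring
      have h4 : inner ℝ (x - y₀) (y j) ≤ 4 := by
        calc inner ℝ (x - y₀) (y j) ≤ ‖x - y₀‖ * ‖y j‖ := real_inner_le_norm _ _
          _ ≤ 1 * 4 := by gcongr; exacts [by linarith, hF.bd j]
          _ = 4 := by norm_num
      have h5 := hy3 j
      have h6 : ζ / 2 * ‖y₀‖ ≤ ζ / 2 * (‖x‖ + 1) := by gcongr; linarith
      have h7 : 64 ≤ ζ * ‖x‖ := by
        refine hζR.trans ?_
        gcongr
        linarith
      linarith only [h3, h4, h5, h6, h7, hζ1]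
    have hnear : ∀ x ∈ closedBall y₀ ε, 0 < ‖x‖ ∧ Real.exp (sb - 1) ≤ ‖x‖ ∧
        ‖x‖ ≤ Real.exp (sb + 1) := by
      intro x hx
      obtain ⟨h1, h2, h3⟩ := hlog x hx
      have h4 := hexp (a := sb) (b := sb + 1) (t := 1) (by linarith) (by norm_num)
      have h5 := hexp (a := sb - 1) (b := sb) (t := 1) (by linarith) (by norm_num)
      rw [← hR] at h4 h5
      refine ⟨by linarith, by linarith, by linarith⟩
    have hsD : closedBall y₀ ε ⊆ D := by
      intro x hx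
      obtain ⟨h1, h2, h3⟩ := hlog x hx
      obtain ⟨h4, h5, h6⟩ := hnear x hx
      have h7 : Real.exp (sb - S - 1) < Real.exp (sb - 1) := Real.exp_lt_exp.2 (by linarith)
      have h8 : Real.exp (sb + 1) < Real.exp (sb + S + 1) := Real.exp_lt_exp.2 (by linarith)
      refine ⟨by linarith, by linarith, fun j => (h3 j).trans_lt ?_⟩
      have : 0 < ζ * ‖x‖ := mul_pos hζ h4
      linarith
    refine ⟨hsD, fun x hx => ?_⟩
    obtain ⟨h1, h2, h3⟩ := hlog x hx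
    obtain ⟨h4, h5, h6⟩ := hnear x hx
    have hx0 : x ≠ 0 := norm_pos_iff.1 h4
    constructor
    · have h7 : Real.exp (sb - S) ≤ Real.exp (sb - 1) := Real.exp_le_exp.2 (by linarith)
      have h8 : Real.exp (sb + 1) ≤ Real.exp (sb + S) := Real.exp_le_exp.2 (by linarith)
      exact KEYW_chi_one hA0 hA01 hA23 hA2 hζ (by linarith) (by linarith) h3
    · obtain ⟨e1, -, e3⟩ := hk x hx0
      have hl1 : sb - 1 ≤ Real.log ‖x‖ := (Real.le_log_iff_exp_le h4).2 h5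
      have hl2 : Real.log ‖x‖ ≤ sb + 1 := (Real.log_le_iff_le_exp h4).2 h6
      have hl3 : (Real.log ‖x‖ - sb) ^ 2 ≤ 1 := by
        rw [sq_le_one_iff_abs_le_one, abs_le]
        constructor
        · linarith only [hl1]
        · linarith only [hl2]
      have hl4 : β / 8 * (Real.log ‖x‖ - sb) ^ 2 ≤ 1 / 4 := by
        have h13 := mul_le_mul_of_nonneg_left hl3 (show 0 ≤ β / 8 by linarith only [hβ])
        linarith only [h13, hβ4]
      have h7 := le_of_abs_le e1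
      have h8 : kw β (β / 8) sb (4 * n + 3) m e x ≤ -2 := by
        unfold kw
        linarith only [hl4, h7, e3, hβ4]
      have h9 : φ x = -Real.log ‖x‖ - ε * kw β (β / 8) sb (4 * n + 3) m e x := rfl
      have hy0 : 1 ≤ ‖y₀‖ := by linarith
      have h10 : Real.log ‖x‖ ≤ Real.log ‖y₀‖ + ε := by
        have h11 : Real.log ‖x‖ ≤ Real.log (‖y₀‖ * (1 + ε)) := by
          apply Real.log_le_log h4
          have h14 := mul_le_mul_of_nonneg_right hy0 hε.le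
          linarith only [h14, h2]
        rw [Real.log_mul (by linarith) (by linarith)] at h11
        have h12 := Real.log_le_sub_one_of_pos (show 0 < 1 + ε by linarith)
        linarith
      rw [h9]
      have h15 := mul_le_mul_of_nonneg_left h8 hε.le
      linarith only [h15, h10, hε]

end EAGrad
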