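import Pool.Agent.Work.MP_ea6116_an.Bd.B07
import Pool.Agent.Work.MP_ea6116_an.Bd.B04
import Pool.Agent.Work.MP_ea6116_an.Bd.B01
import Pool.Agent.Work.MP_ea6116_an.Bd.B05
import Pool.Agent.Work.MP_ea6116_an.Bd.B06
import Pool.Agent.Work.MP_ea6116_an.Bd.B03
import Pool.Agent.Work.MP_ea6116_an.KEYW
import Pool.Agent.Work.MP_ea6116_an.Bd.B02

/-!
MP_ea6116_an: assembly of the proof.
-/

set_option autoImplicit false

namespace EAGrad

theorem main_statement : StmtFIN := by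
  have hSC : StmtSC := SC
  have hLC : StmtLC := LC
  have hSQ : StmtSQ := SQ
  have hMV : StmtMV := MV hSC
  have hR1 : StmtR1 := R1 hMV hSC
  have hPT : StmtPT := PT (CARL CID) MOLL hR1
  have hTB : StmtTB0 := TB0 hPT
  have hSL : StmtSL := SL hTB hSC
  have hKEY : StmtKEY := KEY KEYW hPT
  have hPIN : StmtPIN := PIN hSC hSL hKEY IND
  have hL4 : StmtL4 := L4 PROJ WEYL LOGC
  have hDBL : StmtDBL := DBL (DBLE hL4) hSL hR1 hLC hSQ
  have hHC : StmtHC := HC (HC1 LOGC) HC2 WEYL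
  have hL5 : StmtL5 := L5 (COMP hMV hSC) hHC
  have hBASE : StmtBASE := BASE hDBL hL5 hSC
  have hLOC : StmtLOC := LOC hPIN COV hSL hBASE
  exact FIN (FA (G1 hLOC) hLC hSQ hSC) (FB (G2 hTB) hLC hSQ hSC)

end EAGrad
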